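import Pool.Agent.LE.StmtsQY
import Pool.Agent.Helper90_LQX.EGB
import Pool.Agent.Helper76_LQD.RAL

/-!
# Squad LQY, row LTT: the lattice and the torus
-/

set_option autoImplicit false

open scoped BigOperators Matrix

noncomputable section

namespace Pool.Agent.LE.QY.H85

open Pool.Agent.Anderson hiding box mem_box card_box
open Pool.Agent.Loc hiding nb
open Pool.Agent.BED
open Pool.Agent.Helper54.Bal
open Pool.Agent.LE.QD Pool.Agent.LE.IR Pool.Agent.LE.QX Pool.Agent.LE.QX.H90

variable {d M : ℕ}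

theorem sd_translate (b x y : Site d) : sd (b + x) (b + y) = sd x y := by
  unfold sd
  refine congrArg _ ?_
  funext i
  rw [Pi.add_apply, Pi.add_apply, add_sub_add_left_eq_sub]

theorem ltt (hBAL : BalStmt) : LttStmt := by
  classical
  intro d hd
  obtain ⟨C, hC1, hC⟩ := hBAL d hd
  have hd1 : (1 : ℝ) ≤ d := by exact_mod_cast hd
  have hC0 : 0 ≤ C := by linarith
  refine ⟨64 * (d : ℝ) ^ 2 * C, ?_, ?_⟩
  · nlinarith [mul_le_mul hd1 hd1 zero_le_one (by linarith : (0 : ℝ) ≤ d)]
  intro M _ L V b E η x hη hη1 hL hM hx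
  have hL0 : (0 : ℝ) < L := by exact_mod_cast hL
  obtain ⟨z, hzd⟩ : ∃ z : ℂ, z = ⟨E, η⟩ := ⟨_, rfl⟩
  have hzim : z.im = η := by rw [hzd]
  have hz0 : z.im ≠ 0 := by rw [hzim]; exact hη.ne'
  obtain ⟨g, hg⟩ : ∃ g : L2 d, g = G V z (del (b + x)) := ⟨_, rfl⟩
  obtain ⟨hsum, hbal⟩ := hC V E η (b + x) hη hη1
  rw [← hzd, ← hg] at hsum hbal
  obtain ⟨u, hu⟩ : ∃ u : Site d → ℂ, u = fun y => g (b + y) := ⟨_, rfl⟩
  have hux : ∀ y, u y = g (b + y) := fun y => by rw [hu]
  -- the equation
  have heq : ∀ y, nc u y + ((V (b + y) : ℂ) - z) * u y = if y = x then 1 else 0 := by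
    intro y
    have h1 := G_eq (V := V) hz0 (del (b + x)) (b + y)
    rw [← hg, del_apply] at h1
    have h2 : nc u y = lap g (b + y) := by
      unfold nc lap
      refine Finset.sum_congr rfl fun i _ => ?_
      rw [hux, hux, add_assoc, add_sub_assoc]
    rw [h2, hux, h1]
    by_cases h : y = x
    · rw [if_pos h, if_pos (by rw [h])]
    · rw [if_neg h, if_neg (fun h' => h (add_left_cancel h'))]
  -- the truncated function
  obtain ⟨v, hv⟩ : ∃ v : Tor d M → ℂ, v = fun p => (ct L (rep p) : ℂ) * u (rep p) := ⟨_, rfl⟩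
  obtain ⟨W, hW⟩ : ∃ W : Tor d M → ℝ, W = fun p => V (b + rep p) := ⟨_, rfl⟩
  have hvx : ∀ p, v p = (ct L (rep p) : ℂ) * u (rep p) := fun p => by rw [hv]
  have hWx : ∀ p, W p = V (b + rep p) := fun p => by rw [hW]
  obtain ⟨u', hu'⟩ : ∃ u' : Site d → ℂ, u' = fun y => if L ≤ sd 0 y then u y else 0 := ⟨_, rfl⟩
  have hu'x : ∀ y, u' y = if L ≤ sd 0 y then u y else 0 := fun y => by rw [hu']
  obtain ⟨cm, hcm⟩ : ∃ cm : Site d → ℂ, cm = fun y => ∑ i : Fin d,
      (((ct L (y + Pi.single i 1) - ct L y : ℝ) : ℂ) * u' (y + Pi.single i 1) +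
      ((ct L (y - Pi.single i 1) - ct L y : ℝ) : ℂ) * u' (y - Pi.single i 1)) := ⟨_, rfl⟩
  obtain ⟨r, hr⟩ : ∃ r : Tor d M → ℂ, r = fun p =>
    if rep p ∈ box 0 (2 * L) then cm (rep p) else 0 := ⟨_, rfl⟩
  have hrx : ∀ p, r p = if rep p ∈ box 0 (2 * L) then cm (rep p) else 0 := fun p => by rw [hr]
  -- terms near the centre do not contribute
  have hterm : ∀ y w : Site d, sd y w ≤ 1 →
      ((ct L w - ct L y : ℝ) : ℂ) * u w = ((ct L w - ct L y : ℝ) : ℂ) * u' w := by
    intro y w hyw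
    rw [hu'x]
    split_ifs with h
    · rfl
    · rw [not_le] at h
      have h1 := sd_triangle 0 w y
      rw [sd_comm w y] at h1
      rw [ct_one hL (by omega : sd 0 w ≤ L), ct_one hL (by omega : sd 0 y ≤ L)]
      simp
  have hxL : sd 0 x ≤ L := by omega
  have hrtx : rep (ti M 0 x) = x := rep_ti (R := L) (by omega) hxL
  have htx : ∀ p : Tor d M, rep p = x ↔ p = ti M 0 x := by
    intro p
    constructor
    · intro h
      rw [← ti_rep' p, h]
    · intro h
      rw [h, hrtx]
  have hmain : hz W z *ᵥ v = Pi.single (ti M 0 x) 1 + r := by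
    funext p
    rw [hz_mulVec, Pi.add_apply, hrx]
    have hsx : (Pi.single (ti M 0 x) (1 : ℂ) : Tor d M → ℂ) p = if rep p = x then 1 else 0 := by
      rw [Pi.single_apply]
      by_cases h : p = ti M 0 x
      · rw [if_pos h, if_pos ((htx p).mpr h)]
      · rw [if_neg h, if_neg (fun h' => h ((htx p).mp h'))]
    rw [hsx]
    by_cases hc : rep p ∈ box 0 (2 * L)
    · rw [if_pos hc]
      rw [mem_box] at hc
      have e1 : ∀ i, rep (p + ev i) = rep p + Pi.single i 1 := rep_add (R := 2 * L) (by omega) hc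
      have e2 : ∀ i, rep (p - ev i) = rep p - Pi.single i 1 := rep_sub (R := 2 * L) (by omega) hc
      obtain ⟨y, hy⟩ : ∃ y, y = rep p := ⟨_, rfl⟩
      have e3 : ∑ i : Fin d, (v (p + ev i) + v (p - ev i)) + ((W p : ℂ) - z) * v p =
          (ct L y : ℂ) * (nc u y + ((V (b + y) : ℂ) - z) * u y) + cm y := by
        rw [hvx p, hWx p, ← hy, hcm]
        unfold nc
        rw [mul_add, Finset.mul_sum]
        have e4 : ∀ i, v (p + ev i) + v (p - ev i) =
            (ct L y : ℂ) * (u (y + Pi.single i 1) + u (y - Pi.single i 1)) +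
            (((ct L (y + Pi.single i 1) - ct L y : ℝ) : ℂ) * u' (y + Pi.single i 1) +
            ((ct L (y - Pi.single i 1) - ct L y : ℝ) : ℂ) * u' (y - Pi.single i 1)) := by
          intro i
          rw [← hterm y _ (sd_add y i), ← hterm y _ (sd_sub y i), hvx, hvx, e1, e2, ← hy]
          push_cast
          ring
        rw [Finset.sum_congr rfl fun i _ => e4 i, Finset.sum_add_distrib]
        ring
      rw [e3, heq, ← hy]
      by_cases h : y = x
      · rw [if_pos h, h, ct_one hL hxL]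
        simp
      · rw [if_neg h, mul_zero]
    · rw [if_neg hc]
      rw [mem_box, not_le] at hc
      have z0 : v p = 0 := by
        rw [hvx, ct_zero hL (by omega)]
        simp
      have z1 : ∀ x' : Tor d M, (∃ i, p = x' + ev i ∨ p = x' - ev i) → v x' = 0 := by
        rintro x' ⟨i, hi⟩
        rw [hvx]
        by_cases h2 : 2 * L ≤ sd 0 (rep x')
        · rw [ct_zero hL h2]
          simp
        · exfalso
          rw [not_le] at h2
          have h3 : sd 0 (rep p) ≤ 2 * L := by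
            rcases hi with hi | hi
            · rw [hi, rep_add (R := 2 * L) (by omega) (by omega)]
              have h4 := sd_triangle 0 (rep x') (rep x' + Pi.single i 1)
              have h5 := sd_add (rep x') i
              omega
            · rw [hi, rep_sub (R := 2 * L) (by omega) (by omega)]
              have h4 := sd_triangle 0 (rep x') (rep x' - Pi.single i 1)
              have h5 := sd_sub (rep x') i
              omega
          omega
      have z2 : ∑ i : Fin d, (v (p + ev i) + v (p - ev i)) = 0 := by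
        refine Finset.sum_eq_zero fun i _ => ?_
        rw [z1 (p + ev i) ⟨i, Or.inr (by abel)⟩, z1 (p - ev i) ⟨i, Or.inl (by abel)⟩, add_zero]
      have z3 : rep p ≠ x := by
        intro h
        rw [h] at hc
        omega
      rw [z0, z2, if_neg z3]
      simp
  -- the difference
  have hvr : v = rs W z *ᵥ Pi.single (ti M 0 x) 1 + rs W z *ᵥ r := by
    rw [← Matrix.mulVec_add, ← hmain, Matrix.mulVec_mulVec, H76.rs_mul W hz0, Matrix.one_mulVec]
  have hdiff : ∀ y ∈ box (0 : Site d) L,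
      G V z (del (b + x)) (b + y) - rs W z (ti M 0 x) (ti M 0 y) = (rs W z *ᵥ r) (ti M 0 y) := by
    intro y hy
    rw [mem_box] at hy
    have h1 := congrFun hvr (ti M 0 y)
    rw [hvx, rep_ti (R := L) (by omega) hy, ct_one hL hy, Pi.add_apply, Matrix.mulVec_single_one,
      Matrix.col_apply, H76.rs_symm W z (ti M 0 y) (ti M 0 x), hux, hg] at h1
    rw [← hg] at h1 ⊢
    rw [Complex.ofReal_one, one_mul] at h1
    rw [h1]
    ring
  have hinj : Set.InjOn (ti M (0 : Site d)) (box (0 : Site d) L : Set (Site d)) := by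
    intro y hy y' hy' h
    rw [Finset.mem_coe, mem_box] at hy hy'
    have h3 := rep_ti (M := M) (R := L) (by omega) hy
    have h4 := rep_ti (M := M) (R := L) (by omega) hy'
    rw [← h3, ← h4, h]
  have hS1 : ∑ y ∈ box 0 L, ‖G V z (del (b + x)) (b + y) - rs W z (ti M 0 x) (ti M 0 y)‖ ^ 2 ≤
      n2 (rs W z *ᵥ r) := by
    rw [Finset.sum_congr rfl fun y hy => by rw [hdiff y hy]]
    rw [← Finset.sum_image (s := box (0 : Site d) L) (g := ti M 0)
      (f := fun p => ‖(rs W z *ᵥ r) p‖ ^ 2) hinj]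
    unfold n2
    exact Finset.sum_le_sum_of_subset_of_nonneg (Finset.subset_univ _)
      (fun p _ _ => by positivity)
  have hS2 : n2 (rs W z *ᵥ r) ≤ n2 r / η ^ 2 := by
    have h1 := H76.rs_bd W hz0 r
    rwa [hzim] at h1
  -- the norm of `r`
  obtain ⟨S, hSd⟩ : ∃ S : ℝ, S = ∑ w ∈ box (0 : Site d) (2 * L + 1), ‖u' w‖ ^ 2 := ⟨_, rfl⟩
  have hS3 : n2 r ≤ 2 * d / (L : ℝ) ^ 2 * (2 * d * S) := by
    have h1 : n2 r ≤ ∑ y ∈ box (0 : Site d) (2 * L), ‖cm y‖ ^ 2 := by
      refine le_trans (le_of_eq ?_) (sum_rep (M := M) (fun y => ‖cm y‖ ^ 2) (fun y => by positivity) _)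
      unfold n2
      refine Finset.sum_congr rfl fun p _ => ?_
      rw [hrx]
      split_ifs
      · rfl
      · simp
    refine h1.trans ?_
    have h2 : ∀ y ∈ box (0 : Site d) (2 * L), ‖cm y‖ ^ 2 ≤ 2 * d / (L : ℝ) ^ 2 *
        ∑ i : Fin d, (‖u' (y + Pi.single i 1)‖ ^ 2 + ‖u' (y - Pi.single i 1)‖ ^ 2) := by
      intro y _
      rw [hcm]
      exact comm_bound hL u' y
    refine (Finset.sum_le_sum h2).trans ?_
    rw [← Finset.mul_sum]
    refine mul_le_mul_of_nonneg_left ?_ (by positivity)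
    rw [Finset.sum_comm]
    have h1 : ∀ i : Fin d, ∑ y ∈ box (0 : Site d) (2 * L), (‖u' (y + Pi.single i 1)‖ ^ 2 +
        ‖u' (y - Pi.single i 1)‖ ^ 2) ≤ 2 * S := by
      intro i
      rw [Finset.sum_add_distrib]
      have h2 := sum_shift (fun y => ‖u' y‖ ^ 2) (fun y => by positivity) (A := box 0 (2 * L))
        (B := box 0 (2 * L + 1)) (Pi.single i 1 : Site d) (by
          intro y hy
          rw [mem_box] at hy ⊢
          have h4 := sd_triangle 0 y (y + Pi.single i 1)
          have h5 := sd_add y i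
          omega)
      have h3 := sum_shift (fun y => ‖u' y‖ ^ 2) (fun y => by positivity) (A := box 0 (2 * L))
        (B := box 0 (2 * L + 1)) (-Pi.single i 1 : Site d) (by
          intro y hy
          rw [mem_box] at hy ⊢
          have h4 := sd_triangle 0 y (y - Pi.single i 1)
          have h5 := sd_sub y i
          rw [← sub_eq_add_neg]
          omega)
      simp only [← sub_eq_add_neg] at h3
      rw [← hSd] at h2 h3
      linarith
    calc _ ≤ ∑ _i : Fin d, 2 * S := Finset.sum_le_sum fun i _ => h1 i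
      _ = 2 * d * S := by
          rw [Finset.sum_const, Finset.card_univ, Fintype.card_fin, nsmul_eq_mul]
          ring
  -- the ballistic bound
  have hS4 : S ≤ 16 / (L : ℝ) ^ 4 * (C / η ^ 6) := by
    obtain ⟨f, hf⟩ : ∃ f : Site d → ℝ, f = fun y => (sd (b + x) y : ℝ) ^ 4 * ‖g y‖ ^ 2 := ⟨_, rfl⟩
    have hfx : ∀ y, f y = (sd (b + x) y : ℝ) ^ 4 * ‖g y‖ ^ 2 := fun y => by rw [hf]
    have h1 : ∀ w ∈ box (0 : Site d) (2 * L + 1), ‖u' w‖ ^ 2 ≤ 16 / (L : ℝ) ^ 4 * f (b + w) := by
      intro w _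
      rw [hu'x, hfx, sd_translate]
      split_ifs with h
      · have h2 := sd_triangle 0 x w
        have h3 : (L : ℝ) ≤ 2 * sd x w := by
          have : L ≤ 2 * sd x w := by omega
          exact_mod_cast this
        have h4 : (L : ℝ) ^ 4 ≤ (2 * sd x w) ^ 4 := pow_le_pow_left₀ hL0.le h3 4
        rw [hux]
        have h5 : (1 : ℝ) ≤ 16 / (L : ℝ) ^ 4 * (sd x w : ℝ) ^ 4 := by
          rw [div_mul_eq_mul_div, le_div_iff₀ (by positivity), one_mul]
          calc (L : ℝ) ^ 4 ≤ (2 * sd x w) ^ 4 := h4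
            _ = 16 * (sd x w : ℝ) ^ 4 := by ring
        calc ‖g (b + w)‖ ^ 2 = 1 * ‖g (b + w)‖ ^ 2 := (one_mul _).symm
          _ ≤ (16 / (L : ℝ) ^ 4 * (sd x w : ℝ) ^ 4) * ‖g (b + w)‖ ^ 2 :=
            mul_le_mul_of_nonneg_right h5 (by positivity)
          _ = _ := by ring
      · rw [norm_zero, zero_pow two_ne_zero]
        positivity
    have h2 : ∑ w ∈ box (0 : Site d) (2 * L + 1), f (b + w) ≤ ∑' y, f y := by
      rw [← Finset.sum_image (s := box (0 : Site d) (2 * L + 1)) (g := fun w => b + w) (f := f)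
        (fun w _ w' _ h => add_left_cancel h)]
      refine Summable.sum_le_tsum _ (fun y _ => ?_) ?_
      · rw [hfx]
        positivity
      · rw [hf]
        exact hsum
    have h3 : ∑' y, f y ≤ C / η ^ 6 := by
      rw [hf]
      exact hbal
    calc S ≤ ∑ w ∈ box (0 : Site d) (2 * L + 1), 16 / (L : ℝ) ^ 4 * f (b + w) := by
          rw [hSd]
          exact Finset.sum_le_sum h1
      _ = 16 / (L : ℝ) ^ 4 * ∑ w ∈ box (0 : Site d) (2 * L + 1), f (b + w) := by
          rw [Finset.mul_sum]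
      _ ≤ 16 / (L : ℝ) ^ 4 * (C / η ^ 6) := by
          refine mul_le_mul_of_nonneg_left (h2.trans h3) (by positivity)
  rw [← hzd, ← hW]
  calc ∑ y ∈ box 0 L, ‖G V z (del (b + x)) (b + y) - rs W z (ti M 0 x) (ti M 0 y)‖ ^ 2
      ≤ n2 r / η ^ 2 := hS1.trans hS2
    _ ≤ (2 * d / (L : ℝ) ^ 2 * (2 * d * (16 / (L : ℝ) ^ 4 * (C / η ^ 6)))) / η ^ 2 := by
        refine div_le_div_of_nonneg_right (hS3.trans ?_) (by positivity)
        gcongr
    _ = 64 * (d : ℝ) ^ 2 * C / ((L : ℝ) ^ 6 * η ^ 8) := by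
        field_simp
        ring

end Pool.Agent.LE.QY.H85
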